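import Mathlib
import Pool.Agent.R175.GridPath
import Pool.Agent.R175.GridTile

/-!
# A spiral tiling in which the marked prototile occurs in exactly three aspects

The prototile is the unit square, marked along its bottom side; the tiling is the regular square tiling. The
marked sides form the square spiral through all lattice points, and they are only of three kinds: bottom,
left and right sides.
-/

set_option autoImplicit false

namespace Pool.Agent.Results.MP_361b6b_co.ThreeAspects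

open Set Pool.Agent.R175.GridPath Pool.Agent.R175.GridTile

/-- A closed topological disk. -/
def IsDisk (T : Set ℂ) : Prop := IsClosed T ∧ Nonempty (T ≃ₜ Metric.closedBall (0 : ℂ) 1)

/-- A tiling of the plane by closed topological disks such that every bounded set meets only finitely many
tiles. -/
structure IsTiling {ι : Type} (tile : ι → Set ℂ) : Prop where
  countable : Countable ι
  disk : ∀ i, IsDisk (tile i)
  cover : ⋃ i, tile i = univ
  disjoint : ∀ i j, i ≠ j → Disjoint (interior (tile i)) (interior (tile j))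
  locallyFinite : ∀ B : Set ℂ, Bornology.IsBounded B → {i | (tile i ∩ B).Nonempty}.Finite

/-- A marked monohedral tiling with prototile `T` and marking `M`: `φ i` is an isometry of the plane with
`φ i (T) = T i`. -/
structure IsMarkedTiling {ι : Type} (T : Set ℂ) (M : Set (Set ℂ)) (tile : ι → Set ℂ) (φ : ι → (ℂ ≃ᵢ ℂ)) :
    Prop where
  disk : IsDisk T
  tiling : IsTiling tile
  finite : M.Finite
  nonempty : M.Nonempty
  arcs : ∀ m ∈ M, IsArc m ∧ m ⊆ T
  image : ∀ i, φ i '' T = tile i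

/-- The arcs carried by the tile `i`. -/
def carried {ι : Type} (M : Set (Set ℂ)) (φ : ι → (ℂ ≃ᵢ ℂ)) (i : ι) : Set (Set ℂ) := (fun m => φ i '' m) '' M

/-- The marked tiling is a spiral: the union of all the carried arcs is the union of finitely many unbounded
simple curves. -/
def IsSpiral {ι : Type} (M : Set (Set ℂ)) (φ : ι → (ℂ ≃ᵢ ℂ)) : Prop :=
  ∃ (n : ℕ) (C : Fin n → Set ℂ), (∀ k, IsUnboundedSimpleCurve (C k)) ∧
    ⋃ i, ⋃ m ∈ carried M φ i, m = ⋃ k, C k

/-- Two marked tiles are in the same aspect: a translation maps tile to tile and carried arcs to carried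
arcs. -/
def SameAspect {ι : Type} (M : Set (Set ℂ)) (tile : ι → Set ℂ) (φ : ι → (ℂ ≃ᵢ ℂ)) (i j : ι) : Prop :=
  ∃ v : ℂ, (fun z => z + v) '' tile i = tile j ∧
    (fun m => (fun z => z + v) '' m) '' carried M φ i = carried M φ j

/-- The marked prototile occurs in exactly `k` aspects. -/
def HasAspects {ι : Type} (M : Set (Set ℂ)) (tile : ι → Set ℂ) (φ : ι → (ℂ ≃ᵢ ℂ)) (k : ℕ) : Prop :=
  ∃ c : ι → Fin k, Function.Surjective c ∧ ∀ i j, c i = c j ↔ SameAspect M tile φ i j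

/-! ### The square tiling -/

theorem rect_disk {x0 x1 y0 y1 : ℝ} (hx : x0 < x1) (hy : y0 < y1) : IsDisk (Icc x0 x1 ×ℂ Icc y0 y1) := by
  have hcl : IsClosed (Icc x0 x1 ×ℂ Icc y0 y1) := IsClosed.reProdIm isClosed_Icc isClosed_Icc
  refine ⟨hcl, ?_⟩
  have hconv : Convex ℝ (Icc x0 x1 ×ℂ Icc y0 y1) := by
    intro z hz w hw a b ha hb hab
    rw [Complex.mem_reProdIm] at hz hw ⊢
    have e1 : (a • z + b • w).re = a • z.re + b • w.re := by simp
    have e2 : (a • z + b • w).im = a • z.im + b • w.im := by simp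
    rw [e1, e2]
    exact ⟨convex_Icc _ _ hz.1 hw.1 ha hb hab, convex_Icc _ _ hz.2 hw.2 ha hb hab⟩
  have hne : (interior (Icc x0 x1 ×ℂ Icc y0 y1)).Nonempty := by
    rw [Complex.interior_reProdIm, interior_Icc, interior_Icc]
    refine ⟨⟨(x0 + x1) / 2, (y0 + y1) / 2⟩, ?_⟩
    rw [Complex.mem_reProdIm]
    exact ⟨⟨by change x0 < (x0 + x1) / 2; linarith, by change (x0 + x1) / 2 < x1; linarith⟩,
      by change y0 < (y0 + y1) / 2; linarith, by change (y0 + y1) / 2 < y1; linarith⟩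
  have hb : Bornology.IsBounded (Icc x0 x1 ×ℂ Icc y0 y1) :=
    (Metric.isBounded_Icc _ _).reProdIm (Metric.isBounded_Icc _ _)
  obtain ⟨h, -, h2, -⟩ := exists_homeomorph_image_interior_closure_frontier_eq_unitBall hconv hne hb
  rw [hcl.closure_eq] at h2
  exact ⟨(h.image _).trans (Homeomorph.setCongr h2)⟩

theorem cell_disk (p : ℤ × ℤ) : IsDisk (cell p) := rect_disk (by linarith) (by linarith)

theorem cells_cover : ⋃ p, cell p = univ := by
  rw [eq_univ_iff_forall]
  intro z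
  rw [mem_iUnion]
  refine ⟨(⌊z.re⌋, ⌊z.im⌋), ?_⟩
  rw [cell, Complex.mem_reProdIm]
  exact ⟨⟨Int.floor_le _, (Int.lt_floor_add_one _).le⟩, Int.floor_le _, (Int.lt_floor_add_one _).le⟩

theorem interior_cell (p : ℤ × ℤ) : interior (cell p) = Ioo (p.1 : ℝ) (p.1 + 1) ×ℂ Ioo (p.2 : ℝ) (p.2 + 1) := by
  rw [cell, Complex.interior_reProdIm, interior_Icc, interior_Icc]

theorem floor_of_interior {p : ℤ × ℤ} {z : ℂ} (h : z ∈ interior (cell p)) : (⌊z.re⌋, ⌊z.im⌋) = p := by
  rw [interior_cell, Complex.mem_reProdIm] at h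
  obtain ⟨⟨h1, h2⟩, h3, h4⟩ := h
  apply Prod.ext
  · exact Int.floor_eq_iff.2 ⟨h1.le, h2⟩
  · exact Int.floor_eq_iff.2 ⟨h3.le, h4⟩

theorem square_tiling : IsTiling cell where
  countable := inferInstance
  disk := cell_disk
  cover := cells_cover
  disjoint := by
    intro p q hpq
    rw [disjoint_left]
    intro z hz hz'
    exact hpq ((floor_of_interior hz).symm.trans (floor_of_interior hz'))
  locallyFinite := by
    intro B hB
    obtain ⟨R, hR⟩ := hB.exists_norm_le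
    apply (Set.finite_Icc ((-(⌈R⌉ + 1), -(⌈R⌉ + 1)) : ℤ × ℤ) (⌈R⌉ + 1, ⌈R⌉ + 1)).subset
    rintro ⟨a, b⟩ ⟨z, hz, hzB⟩
    rw [cell, Complex.mem_reProdIm] at hz
    obtain ⟨⟨h1, h2⟩, h3, h4⟩ := hz
    dsimp only at h1 h2 h3 h4
    have h5 := abs_le.1 ((Complex.abs_re_le_norm z).trans (hR z hzB))
    have h6 := abs_le.1 ((Complex.abs_im_le_norm z).trans (hR z hzB))
    have h7 := Int.le_ceil R
    have k1 : (a : ℝ) ≤ ((⌈R⌉ + 1 : ℤ) : ℝ) := by push_cast; linarith
    have k2 : ((-(⌈R⌉ + 1) : ℤ) : ℝ) ≤ a := by push_cast; linarith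
    have k3 : (b : ℝ) ≤ ((⌈R⌉ + 1 : ℤ) : ℝ) := by push_cast; linarith
    have k4 : ((-(⌈R⌉ + 1) : ℤ) : ℝ) ≤ b := by push_cast; linarith
    exact ⟨⟨by exact_mod_cast k2, by exact_mod_cast k4⟩, by exact_mod_cast k1, by exact_mod_cast k3⟩

/-! ### The spiral -/

/-- The successor of a lattice point on the square spiral. -/
def S (p : ℤ × ℤ) : ℤ × ℤ :=
  if p.2 ≤ p.1 ∧ p.1 ≤ -p.2 then (p.1 + 1, p.2)
  else if -p.1 < p.2 ∧ p.2 < p.1 then (p.1, p.2 + 1)
  else if 1 ≤ p.2 ∧ -p.2 < p.1 then (p.1 - 1, p.2)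
  else (p.1, p.2 - 1)

theorem S_bot {x y : ℤ} (h1 : y ≤ x) (h2 : x ≤ -y) : S (x, y) = (x + 1, y) := by
  unfold S; rw [if_pos ⟨h1, h2⟩]

theorem S_right {x y : ℤ} (h1 : -x < y) (h2 : y < x) : S (x, y) = (x, y + 1) := by
  unfold S
  rw [if_neg (by dsimp only; omega), if_pos ⟨h1, h2⟩]

theorem S_top {x y : ℤ} (h0 : 1 ≤ y) (h1 : -y < x) (h2 : x ≤ y) : S (x, y) = (x - 1, y) := by
  unfold S
  rw [if_neg (by dsimp only; omega), if_neg (by dsimp only; omega), if_pos ⟨h0, h1⟩]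

theorem S_left {x y : ℤ} (_h0 : x < 0) (h1 : x < y) (h2 : y ≤ -x) : S (x, y) = (x, y - 1) := by
  unfold S
  rw [if_neg (by dsimp only; omega), if_neg (by dsimp only; omega), if_neg (by dsimp only; omega)]

/-- The four regions. -/
theorem regions (x y : ℤ) : (y ≤ x ∧ x ≤ -y) ∨ (-x < y ∧ y < x) ∨ (1 ≤ y ∧ -y < x ∧ x ≤ y) ∨
    (x < 0 ∧ x < y ∧ y ≤ -x) := by omega

/-- Number of the shell. -/
def rk (p : ℤ × ℤ) : ℕ := max p.1.natAbs p.2.natAbs

/-- Position in the shell. -/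
def pos (p : ℤ × ℤ) : ℕ :=
  if p.2 ≤ p.1 ∧ p.1 ≤ -p.2 then (p.1 - 7 * p.2).toNat
  else if -p.1 < p.2 ∧ p.2 < p.1 then (p.1 + p.2).toNat
  else if 1 ≤ p.2 ∧ -p.2 < p.1 then (3 * p.2 - p.1).toNat
  else (-5 * p.1 - p.2).toNat

theorem spiral : RaySys univ S (0, 0) where
  o_mem := mem_univ _
  maps := fun _ _ => mem_univ _
  inj := by
    rintro ⟨x, y⟩ - ⟨x', y'⟩ - h
    rcases regions x y with h1 | h1 | h1 | h1 <;> rcases regions x' y' with h2 | h2 | h2 | h2
    · rw [S_bot h1.1 h1.2, S_bot h2.1 h2.2, Prod.mk.injEq] at h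
      rw [Prod.mk.injEq]; omega
    · rw [S_bot h1.1 h1.2, S_right h2.1 h2.2, Prod.mk.injEq] at h
      rw [Prod.mk.injEq]; omega
    · rw [S_bot h1.1 h1.2, S_top h2.1 h2.2.1 h2.2.2, Prod.mk.injEq] at h
      rw [Prod.mk.injEq]; omega
    · rw [S_bot h1.1 h1.2, S_left h2.1 h2.2.1 h2.2.2, Prod.mk.injEq] at h
      rw [Prod.mk.injEq]; omega
    · rw [S_right h1.1 h1.2, S_bot h2.1 h2.2, Prod.mk.injEq] at h
      rw [Prod.mk.injEq]; omega
    · rw [S_right h1.1 h1.2, S_right h2.1 h2.2, Prod.mk.injEq] at h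
      rw [Prod.mk.injEq]; omega
    · rw [S_right h1.1 h1.2, S_top h2.1 h2.2.1 h2.2.2, Prod.mk.injEq] at h
      rw [Prod.mk.injEq]; omega
    · rw [S_right h1.1 h1.2, S_left h2.1 h2.2.1 h2.2.2, Prod.mk.injEq] at h
      rw [Prod.mk.injEq]; omega
    · rw [S_top h1.1 h1.2.1 h1.2.2, S_bot h2.1 h2.2, Prod.mk.injEq] at h
      rw [Prod.mk.injEq]; omega
    · rw [S_top h1.1 h1.2.1 h1.2.2, S_right h2.1 h2.2, Prod.mk.injEq] at h
      rw [Prod.mk.injEq]; omega
    · rw [S_top h1.1 h1.2.1 h1.2.2, S_top h2.1 h2.2.1 h2.2.2, Prod.mk.injEq] at h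
      rw [Prod.mk.injEq]; omega
    · rw [S_top h1.1 h1.2.1 h1.2.2, S_left h2.1 h2.2.1 h2.2.2, Prod.mk.injEq] at h
      rw [Prod.mk.injEq]; omega
    · rw [S_left h1.1 h1.2.1 h1.2.2, S_bot h2.1 h2.2, Prod.mk.injEq] at h
      rw [Prod.mk.injEq]; omega
    · rw [S_left h1.1 h1.2.1 h1.2.2, S_right h2.1 h2.2, Prod.mk.injEq] at h
      rw [Prod.mk.injEq]; omega
    · rw [S_left h1.1 h1.2.1 h1.2.2, S_top h2.1 h2.2.1 h2.2.2, Prod.mk.injEq] at h
      rw [Prod.mk.injEq]; omega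
    · rw [S_left h1.1 h1.2.1 h1.2.2, S_left h2.1 h2.2.1 h2.2.2, Prod.mk.injEq] at h
      rw [Prod.mk.injEq]; omega
  no := by
    rintro ⟨x, y⟩ - h
    rcases regions x y with h1 | h1 | h1 | h1
    · rw [S_bot h1.1 h1.2, Prod.mk.injEq] at h; omega
    · rw [S_right h1.1 h1.2, Prod.mk.injEq] at h; omega
    · rw [S_top h1.1 h1.2.1 h1.2.2, Prod.mk.injEq] at h; omega
    · rw [S_left h1.1 h1.2.1 h1.2.2, Prod.mk.injEq] at h; omega
  adj := by
    rintro ⟨x, y⟩ -
    rcases regions x y with h1 | h1 | h1 | h1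
    · rw [S_bot h1.1 h1.2]; simp [Adj]
    · rw [S_right h1.1 h1.2]; simp [Adj]
    · rw [S_top h1.1 h1.2.1 h1.2.2]; simp [Adj]
    · rw [S_left h1.1 h1.2.1 h1.2.2]; simp [Adj]
  reach := by
    apply reach_of_rank rk pos
    rintro ⟨x, y⟩ - hne
    rw [ne_eq, Prod.mk.injEq] at hne
    have hc : (y ≤ x - 1 ∧ x - 1 ≤ -y) ∨ (-x < y - 1 ∧ y - 1 < x) ∨ (1 ≤ y ∧ -y < x + 1 ∧ x + 1 ≤ y) ∨
        (x < 0 ∧ x < y + 1 ∧ y + 1 ≤ -x) := by omega
    rcases hc with h1 | h1 | h1 | h1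
    · refine ⟨(x - 1, y), mem_univ _, ?_, ?_⟩
      · rw [S_bot h1.1 h1.2]; simp
      · simp only [rk, pos]
        split_ifs <;> omega
    · refine ⟨(x, y - 1), mem_univ _, ?_, ?_⟩
      · rw [S_right h1.1 h1.2]; simp
      · simp only [rk, pos]
        split_ifs <;> omega
    · refine ⟨(x + 1, y), mem_univ _, ?_, ?_⟩
      · rw [S_top h1.1 h1.2.1 h1.2.2]; simp
      · simp only [rk, pos]
        split_ifs <;> omega
    · refine ⟨(x, y + 1), mem_univ _, ?_, ?_⟩
      · rw [S_left h1.1 h1.2.1 h1.2.2]; simp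
      · simp only [rk, pos]
        split_ifs <;> omega

/-- The side of the tile `p` that is marked. -/
def sd (p : ℤ × ℤ) : Sd :=
  if p.2 ≤ p.1 ∧ p.1 ≤ -p.2 then Sd.B
  else if -p.1 < p.2 ∧ p.2 < p.1 then Sd.L
  else if 1 ≤ p.2 ∧ -p.2 ≤ p.1 ∧ p.1 < p.2 then Sd.B
  else if p.1 + 1 ≤ p.2 ∧ p.2 ≤ -p.1 - 2 then Sd.R
  else if p.1 = p.2 then Sd.R
  else Sd.L

/-- The marked side of every tile is an edge of the spiral. -/
theorem sd_edge (p : ℤ × ℤ) : S (e1 p (sd p)) = e2 p (sd p) ∨ S (e2 p (sd p)) = e1 p (sd p) := by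
  obtain ⟨x, y⟩ := p
  unfold sd
  dsimp only
  split_ifs with h1 h2 h3 h4 h5
  · left
    exact S_bot h1.1 h1.2
  · right
    exact S_right h2.1 h2.2
  · right
    change S (x + 1, y) = (x, y)
    rw [S_top (by omega) (by omega) (by omega), add_sub_cancel_right]
  · right
    change S (x + 1, y + 1) = (x + 1, y)
    rw [S_left (by omega) (by omega) (by omega), add_sub_cancel_right]
  · left
    change S (x + 1, y) = (x + 1, y + 1)
    rw [S_right (by omega) (by omega)]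
  · left
    change S (x, y + 1) = (x, y)
    rw [S_left (by omega) (by omega) (by omega), add_sub_cancel_right]

/-- Every edge of the spiral is marked. -/
theorem edge_sd (p : ℤ × ℤ) : ∃ q, (e1 q (sd q) = p ∧ e2 q (sd q) = S p) ∨
    (e2 q (sd q) = p ∧ e1 q (sd q) = S p) := by
  obtain ⟨x, y⟩ := p
  rcases regions x y with h1 | h1 | h1 | h1
  · refine ⟨(x, y), ?_⟩
    have : sd (x, y) = Sd.B := by
      unfold sd; rw [if_pos h1]
    rw [this, S_bot h1.1 h1.2]
    exact Or.inl ⟨rfl, rfl⟩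
  · refine ⟨(x, y), ?_⟩
    have : sd (x, y) = Sd.L := by
      unfold sd; rw [if_neg (by dsimp only; omega), if_pos h1]
    rw [this, S_right h1.1 h1.2]
    exact Or.inr ⟨rfl, rfl⟩
  · refine ⟨(x - 1, y), ?_⟩
    have : sd (x - 1, y) = Sd.B := by
      unfold sd
      rw [if_neg (by dsimp only; omega), if_neg (by dsimp only; omega), if_pos (by dsimp only; omega)]
    rw [this, S_top h1.1 h1.2.1 h1.2.2]
    refine Or.inr ⟨?_, rfl⟩
    simp [e2]
  · refine ⟨(x - 1, y - 1), ?_⟩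
    have : sd (x - 1, y - 1) = Sd.R := by
      unfold sd
      rw [if_neg (by dsimp only; omega), if_neg (by dsimp only; omega), if_neg (by dsimp only; omega),
        if_pos (by dsimp only; omega)]
    rw [this, S_left h1.1 h1.2.1 h1.2.2]
    refine Or.inr ⟨?_, ?_⟩
    · simp [e2]
    · simp [e1]

theorem union_eq : ⋃ p, segment ℝ (pt (e1 p (sd p))) (pt (e2 p (sd p))) =
    ⋃ p ∈ (univ : Set (ℤ × ℤ)), segment ℝ (pt p) (pt (S p)) := by
  ext z
  simp only [mem_iUnion, mem_univ, exists_true_left]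
  constructor
  · rintro ⟨p, hp⟩
    rcases sd_edge p with h | h
    · exact ⟨e1 p (sd p), by rw [h]; exact hp⟩
    · exact ⟨e2 p (sd p), by rw [h, segment_symm]; exact hp⟩
  · rintro ⟨p, hp⟩
    obtain ⟨q, ⟨h1, h2⟩ | ⟨h1, h2⟩⟩ := edge_sd p
    · exact ⟨q, by rw [h1, h2]; exact hp⟩
    · exact ⟨q, by rw [h1, h2, segment_symm]; exact hp⟩

/-! ### Aspects -/

/-- The line through a side. -/
def onLine (p : ℤ × ℤ) (z : ℂ) : Sd → Prop
  | Sd.B => z.im = p.2
  | Sd.R => z.re = p.1 + 1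
  | Sd.T => z.im = p.2 + 1
  | Sd.L => z.re = p.1

theorem onLine_seg (p : ℤ × ℤ) (s : Sd) {z : ℂ} (hz : z ∈ segment ℝ (pt (e1 p s)) (pt (e2 p s))) :
    onLine p z s := by
  rw [segment_eq_image'] at hz
  obtain ⟨t, -, rfl⟩ := hz
  cases s <;> simp [onLine, pt, e1, e2]

theorem onLine_ends (p : ℤ × ℤ) {s t : Sd} (h1 : onLine p (pt (e1 p s)) t) (h2 : onLine p (pt (e2 p s)) t) :
    s = t := by
  cases s <;> cases t <;> simp [onLine, pt, e1, e2] at h1 h2 ⊢

theorem side_inj (p : ℤ × ℤ) {s t : Sd} (h : place p s '' bottom = place p t '' bottom) : s = t := by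
  rw [place_bottom, place_bottom] at h
  apply onLine_ends p
  · exact onLine_seg p t (h ▸ left_mem_segment ℝ _ _)
  · exact onLine_seg p t (h ▸ right_mem_segment ℝ _ _)

/-- A translation that maps a cell to a cell. -/
theorem translation_cell {p q : ℤ × ℤ} {v : ℂ} (h : (fun z => z + v) '' cell p = cell q) :
    v = pt q - pt p := by
  have mp : pt p ∈ cell p := by
    rw [cell, Complex.mem_reProdIm]
    exact ⟨⟨le_rfl, by change (p.1 : ℝ) ≤ p.1 + 1; linarith⟩, le_rfl, by change (p.2 : ℝ) ≤ p.2 + 1; linarith⟩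
  have mq : pt q ∈ cell q := by
    rw [cell, Complex.mem_reProdIm]
    exact ⟨⟨le_rfl, by change (q.1 : ℝ) ≤ q.1 + 1; linarith⟩, le_rfl, by change (q.2 : ℝ) ≤ q.2 + 1; linarith⟩
  have h1 : pt p + v ∈ cell q := h ▸ ⟨pt p, mp, rfl⟩
  rw [← h] at mq
  obtain ⟨w, hw, hwq⟩ := mq
  rw [cell, Complex.mem_reProdIm] at h1 hw
  obtain ⟨⟨a1, -⟩, a2, -⟩ := h1
  obtain ⟨⟨b1, -⟩, b2, -⟩ := hw
  have c1 := congrArg Complex.re hwq
  have c2 := congrArg Complex.im hwq
  simp only [Complex.add_re, Complex.add_im] at a1 a2 c1 c2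
  change w.re + v.re = q.1 at c1
  change w.im + v.im = q.2 at c2
  change (q.1 : ℝ) ≤ p.1 + v.re at a1
  change (q.2 : ℝ) ≤ p.2 + v.im at a2
  apply Complex.ext
  · change v.re = q.1 - p.1
    linarith
  · change v.im = q.2 - p.2
    linarith

theorem translate_place (p q : ℤ × ℤ) (s : Sd) (S0 : Set ℂ) :
    (fun z => z + (pt q - pt p)) '' (place p s '' S0) = place q s '' S0 := by
  rw [image_image]
  apply image_congr
  intro z _
  cases s
  · change (1 * z + pt p) + (pt q - pt p) = 1 * z + pt q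
    ring
  · change (Complex.I * z + (pt p + 1)) + (pt q - pt p) = Complex.I * z + (pt q + 1)
    ring
  · change (-1 * z + (pt p + 1 + Complex.I)) + (pt q - pt p) = -1 * z + (pt q + 1 + Complex.I)
    ring
  · change (-Complex.I * z + (pt p + Complex.I)) + (pt q - pt p) = -Complex.I * z + (pt q + Complex.I)
    ring

/-- The placements of the tiles. -/
noncomputable def φ (p : ℤ × ℤ) : ℂ ≃ᵢ ℂ := place p (sd p)

theorem carried_eq (p : ℤ × ℤ) : carried {bottom} φ p = {place p (sd p) '' bottom} := by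
  unfold carried φ
  rw [image_singleton]

theorem sameAspect_iff (p q : ℤ × ℤ) : SameAspect {bottom} cell φ p q ↔ sd p = sd q := by
  unfold SameAspect
  rw [carried_eq, carried_eq]
  simp only [image_singleton]
  constructor
  · rintro ⟨v, h1, h2⟩
    have hv := translation_cell h1
    subst hv
    rw [translate_place, singleton_eq_singleton_iff] at h2
    exact side_inj q h2
  · intro h
    refine ⟨pt q - pt p, ?_, ?_⟩
    · rw [← place_square p (sd p), translate_place, place_square]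
    · rw [translate_place, h]

/-- The colour of a side. -/
def col : Sd → Fin 3
  | Sd.B => 0
  | Sd.R => 1
  | Sd.T => 0
  | Sd.L => 2

theorem sd_ne_T (p : ℤ × ℤ) : sd p ≠ Sd.T := by
  unfold sd; split_ifs <;> simp

theorem col_inj {s t : Sd} (hs : s ≠ Sd.T) (ht : t ≠ Sd.T) (h : col s = col t) : s = t := by
  cases s <;> cases t <;> simp_all [col]

theorem three_aspects : HasAspects {bottom} cell φ 3 := by
  refine ⟨fun p => col (sd p), ?_, ?_⟩
  · intro k
    fin_cases k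
    · exact ⟨(0, 0), by simp [sd, col]⟩
    · exact ⟨(1, 1), by simp [sd, col]⟩
    · exact ⟨(1, 0), by simp [sd, col]⟩
  · intro p q
    rw [sameAspect_iff]
    constructor
    · exact col_inj (sd_ne_T p) (sd_ne_T q)
    · intro h
      change col (sd p) = col (sd q)
      rw [h]

theorem is_spiral : IsSpiral {bottom} φ := by
  refine ⟨1, fun _ => ⋃ p ∈ (univ : Set (ℤ × ℤ)), segment ℝ (pt p) (pt (S p)),
    fun _ => curve_of_ray spiral, ?_⟩
  rw [iUnion_const, ← union_eq]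
  apply iUnion_congr
  intro p
  rw [carried_eq, biUnion_singleton, place_bottom]

theorem marked_tiling : IsMarkedTiling unitSquare {bottom} cell φ where
  disk := rect_disk one_pos one_pos
  tiling := square_tiling
  finite := finite_singleton _
  nonempty := singleton_nonempty _
  arcs := by
    rintro m rfl
    exact ⟨bottom_arc, bottom_sub⟩
  image := fun p => place_square p (sd p)

/-- There is a spiral tiling in which the marked prototile occurs in exactly three aspects. -/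
theorem result : ∃ (T : Set ℂ) (M : Set (Set ℂ)) (ι : Type) (tile : ι → Set ℂ) (φ : ι → (ℂ ≃ᵢ ℂ)),
    IsMarkedTiling T M tile φ ∧ IsSpiral M φ ∧ HasAspects M tile φ 3 :=
  ⟨unitSquare, {bottom}, ℤ × ℤ, cell, φ, marked_tiling, is_spiral, three_aspects⟩

end Pool.Agent.Results.MP_361b6b_co.ThreeAspects
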